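import Pool.Agent.H547_pp.Link
import Pool.Agent.H916Y.Fams3

/-!
# Products of Gauss sums

A multiset `s` of nonzero residues modulo `m`, of even cardinality, which satisfies the condition of
Stickelberger (`Rel0`), but whose sum need not be zero, becomes a Tate character after raising the
degree and adding two elements `b`, `-p * b`.
-/

set_option autoImplicit false

namespace Pool.Agent.H547_as

open Finset Pool.Agent.H916R2 Pool.Agent.H916T Pool.Agent.H916U Pool.Agent.H916Z Pool.Agent.H916Q
  Pool.Agent.H916Y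

/-- two element sets satisfying the condition of Stickelberger -/
def PairW (p M : ℕ) (t : Multiset (ZMod M)) : Prop :=
  (0 : ZMod M) ∉ t ∧ Multiset.card t = 2 ∧ Rel0 p t

/-- the base family -/
def GBase (p M : ℕ) (t : Multiset (ZMod M)) : Prop := PairW p M t ∨ ZBase p M t

/-- the conclusion -/
def GConcl (p m : ℕ) (s : Multiset (ZMod m)) : Prop :=
  ∃ N : ℕ, 0 < N ∧ p.Coprime N ∧ ∀ M : ℕ, N * m = M →
    H916T.Generated M (GBase p M) (s.map (iota N : ZMod m → ZMod M))

variable {p : ℕ}

lemma link_iota {k m M : ℕ} [NeZero m] [NeZero M] (hkm : k * m = M) {a b : ZMod m}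
    (h : Link p a b) : Link p (iota k a : ZMod M) (iota k b) := by
  obtain ⟨ha, hb, h⟩ := h
  refine ⟨fun h0 => ha (iota_eq_zero hkm h0), fun h0 => hb (iota_eq_zero hkm h0), ?_⟩
  rw [addOrderOf_iota hkm, addOrderOf_iota hkm]
  rcases h with h | h | h
  · exact Or.inl h
  · exact Or.inr (Or.inl h)
  · refine Or.inr (Or.inr fun t => ?_)
    obtain ⟨r, hr⟩ := W_iota (k := k) (m0 := m) (m := M) (p := p) hkm
    rw [unit_iota hkm, unit_iota hkm, hr, hr, h]

lemma eqvGen_iota {k m M : ℕ} [NeZero m] [NeZero M] (hkm : k * m = M) {a b : ZMod m}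
    (h : Relation.EqvGen (Link p) a b) :
    Relation.EqvGen (Link p) (iota k a : ZMod M) (iota k b) := by
  induction h with
  | rel a b h => exact Relation.EqvGen.rel _ _ (link_iota hkm h)
  | refl a => exact Relation.EqvGen.refl _
  | symm a b _ ih => exact Relation.EqvGen.symm _ _ ih
  | trans a b c _ _ ih1 ih2 => exact Relation.EqvGen.trans _ _ _ ih1 ih2

open scoped Classical in
lemma even_iota {k m M : ℕ} [NeZero m] [NeZero M] (hkm : k * m = M) {s : Multiset (ZMod m)}
    (h : ∀ a : ZMod m, Even (s.countP (fun b => Relation.EqvGen (Link p) a b))) (a : ZMod M) :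
    Even ((s.map (iota k : ZMod m → ZMod M)).countP (fun b => Relation.EqvGen (Link p) a b)) := by
  rw [Multiset.countP_map, ← Multiset.countP_eq_card_filter]
  refine even_of_key (fun b : ZMod m => Quot.mk (Link p) b) _ _ s rfl ?_ ?_
  · intro K
    obtain ⟨c, rfl⟩ := Quot.exists_rep K
    have h1 : s.countP (fun b => Quot.mk (Link p) b = Quot.mk (Link p) c) =
        s.countP (fun b => Relation.EqvGen (Link p) c b) := by
      refine Multiset.countP_congr rfl fun b _ => ?_
      rw [← Quot.eq]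
      exact propext eq_comm
    rw [h1]
    exact h c
  · intro b _ c _ hbc
    have h1 := eqvGen_iota (k := k) hkm (Quot.eq.mp hbc)
    exact ⟨fun h2 => h2.trans _ _ _ h1, fun h2 => h2.trans _ _ _ (Relation.EqvGen.symm _ _ h1)⟩

/-- a solution of `p * b - b = iota K x` -/
lemma exists_b {K u m M : ℕ} (hKm : K * m = M) (hu : K * u = p - 1) (hp : 0 < p)
    (huM : u.Coprime M) (x : ZMod m) [NeZero m] :
    ∃ b : ZMod M, (p : ZMod M) * b - b = iota K x := by
  obtain ⟨v, hv⟩ := (ZMod.isUnit_iff_coprime u M).mpr huM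
  refine ⟨((v⁻¹ : (ZMod M)ˣ) : ZMod M) * ((x.val : ℕ) : ZMod M), ?_⟩
  have h1 : (p : ZMod M) = (K : ZMod M) * (u : ZMod M) + 1 := by
    have h2 : p = K * u + 1 := by omega
    conv_lhs => rw [h2]
    push_cast
    rfl
  have h3 : (u : ZMod M) * ((v⁻¹ : (ZMod M)ˣ) : ZMod M) = 1 := by
    rw [← hv]
    exact v.mul_inv
  have h4 : (iota K x : ZMod M) = (K : ZMod M) * ((x.val : ℕ) : ZMod M) := by
    unfold iota
    push_cast
    rfl
  rw [h1, h4]
  linear_combination (K : ZMod M) * ((x.val : ℕ) : ZMod M) * h3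

lemma generated_remove {M : ℕ} {s : Multiset (ZMod M)} {b c : ZMod M}
    (hb : b ≠ 0) (hc : c ≠ 0) (hW : Rel0 p ({b, c} : Multiset (ZMod M))) [NeZero M]
    (h : H916T.Generated M (GBase p M) (s + {b, c})) : H916T.Generated M (GBase p M) s := by
  have h1 : H916T.Generated M (GBase p M) ({-b, -c} : Multiset (ZMod M)) := by
    refine H916T.Generated.ofBase _ (Or.inl ⟨?_, rfl, ?_⟩)
    · simp only [Multiset.insert_eq_cons, Multiset.mem_cons, Multiset.mem_singleton, not_or]
      exact ⟨(neg_ne_zero.2 hb).symm, (neg_ne_zero.2 hc).symm⟩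
    · intro t
      have h2 := hW t
      simp only [Multiset.insert_eq_cons, Multiset.map_cons, Multiset.map_singleton,
        Multiset.sum_cons, Multiset.sum_singleton, mul_neg, W_neg] at h2 ⊢
      omega
  have h2 := H916T.Generated.join _ _ h h1
  apply H916T.Generated.cancel b
  apply H916T.Generated.cancel c
  convert h2 using 1
  simp only [Multiset.insert_eq_cons, ← Multiset.singleton_add]
  abel

/-- the extension -/
theorem extend {K u m M : ℕ} (hp : p.Prime) (hm : 0 < m) (hKm : K * m = M) (hu : K * u = p - 1)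
    (huM : u.Coprime M) (hpM : p.Coprime M) {s : Multiset (ZMod m)} (h0 : (0 : ZMod m) ∉ s)
    (he : Even (Multiset.card s)) (hr : Rel0 p s) :
    ∃ s' : Multiset (ZMod M), IsTate p M s' ∧ (s ≠ 0 → s' ≠ 0) ∧
      (∃ x : Multiset (ZMod M), s' = s.map (iota K : ZMod m → ZMod M) + x ∧
        (∀ b ∈ x, ∀ c ∈ x, addOrderOf b = addOrderOf c) ∧ Even (Multiset.card x)) ∧
      (Concl p M s' → GConcl p m s) := by
  have hz : NeZero m := ⟨hm.ne'⟩
  have hK : 0 < K := Nat.pos_of_ne_zero (by
    rintro rfl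
    rw [zero_mul] at hKm
    subst hKm
    rw [Nat.coprime_zero_right] at hpM
    exact hp.one_lt.ne' hpM)
  have hM : 0 < M := by rw [← hKm]; exact Nat.mul_pos hK hm
  have hzM : NeZero M := ⟨hM.ne'⟩
  obtain ⟨b, hb⟩ := exists_b hKm hu hp.pos huM s.sum
  have h0' : (0 : ZMod M) ∉ s.map (iota K : ZMod m → ZMod M) := by
    intro h
    obtain ⟨a, ha, ha0⟩ := Multiset.mem_map.mp h
    rw [iota_eq_zero hKm ha0] at ha
    exact h0 ha
  by_cases hb0 : b = 0
  · refine ⟨s.map (iota K : ZMod m → ZMod M), ?_, ?_, ⟨0, by simp, by simp, by simp⟩, ?_⟩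
    · refine isTate_of_W hpM h0' (by rw [Multiset.card_map]; exact he) ?_ (hr.iota hKm)
      rw [sum_iota hKm, ← hb, hb0]
      ring
    · intro hs h
      exact hs (Multiset.map_eq_zero.mp h)
    · rintro ⟨N, hN, hpN, H⟩
      refine ⟨N * K, Nat.mul_pos hN hK,
        Nat.Coprime.mul_right hpN (Nat.Coprime.coprime_dvd_right (Dvd.intro _ hKm) hpM), ?_⟩
      intro M' hM'
      have h1 := H M' (by rw [← hM', ← hKm]; ring)
      rw [Multiset.map_map] at h1
      have h2 : s.map (iota (N * K) : ZMod m → ZMod M') =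
          s.map ((iota N : ZMod M → ZMod M') ∘ (iota K : ZMod m → ZMod M)) := by
        refine Multiset.map_congr rfl fun a _ => ?_
        rw [Function.comp_apply, iota_comp (by rw [← hM', ← hKm]; ring)]
      rw [h2]
      exact generated_mono (fun t ht => Or.inr ht) h1
  · have hpb : (p : ZMod M) * b ≠ 0 := fun h => hb0 (((isUnit_p hpM).mul_right_eq_zero).mp h)
    have hpb' : -((p : ZMod M) * b) ≠ 0 := neg_ne_zero.2 hpb
    have hW : Rel0 p ({b, -((p : ZMod M) * b)} : Multiset (ZMod M)) := by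
      intro t
      have h1 : (t : ZMod M) * -((p : ZMod M) * b) = -((p : ZMod M) * ((t : ZMod M) * b)) := by ring
      simp only [Multiset.insert_eq_cons, Multiset.map_cons, Multiset.map_singleton,
        Multiset.sum_cons, Multiset.sum_singleton]
      rw [h1, W_neg, W_mul]
      ring
    have hord : addOrderOf (-((p : ZMod M) * b)) = addOrderOf b := by
      rw [addOrderOf_neg]
      have h1 : ∀ k : ℕ, k • ((p : ZMod M) * b) = 0 ↔ k • b = 0 := by
        intro k
        rw [nsmul_eq_mul, nsmul_eq_mul, mul_left_comm]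
        exact (isUnit_p hpM).mul_right_eq_zero
      apply Nat.dvd_antisymm
      · rw [addOrderOf_dvd_iff_nsmul_eq_zero, h1]
        exact addOrderOf_nsmul_eq_zero b
      · rw [addOrderOf_dvd_iff_nsmul_eq_zero, ← h1]
        exact addOrderOf_nsmul_eq_zero _
    refine ⟨s.map (iota K : ZMod m → ZMod M) + {b, -((p : ZMod M) * b)}, ?_, ?_,
      ⟨_, rfl, ?_, by simp⟩, ?_⟩
    · refine isTate_of_W hpM ?_ ?_ ?_ ((hr.iota hKm).add hW)
      · rw [Multiset.mem_add, not_or]
        refine ⟨h0', ?_⟩
        simp only [Multiset.insert_eq_cons, Multiset.mem_cons, Multiset.mem_singleton, not_or]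
        exact ⟨fun h => hb0 h.symm, fun h => hpb' h.symm⟩
      · rw [Multiset.card_add, Multiset.card_map]
        exact he.add (by simp)
      · rw [Multiset.sum_add, sum_iota hKm, ← hb]
        simp only [Multiset.insert_eq_cons, Multiset.sum_cons, Multiset.sum_singleton]
        ring
    · intro _ h
      have h1 := congrArg Multiset.card h
      rw [Multiset.card_add] at h1
      simp at h1
    · intro c hc d hd
      have h1 : ∀ y ∈ ({b, -((p : ZMod M) * b)} : Multiset (ZMod M)),
          addOrderOf y = addOrderOf b := by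
        intro y hy
        simp only [Multiset.insert_eq_cons, Multiset.mem_cons, Multiset.mem_singleton] at hy
        rcases hy with rfl | rfl
        · rfl
        · exact hord
      rw [h1 c hc, h1 d hd]
    · rintro ⟨N, hN, hpN, H⟩
      refine ⟨N * K, Nat.mul_pos hN hK,
        Nat.Coprime.mul_right hpN (Nat.Coprime.coprime_dvd_right (Dvd.intro _ hKm) hpM), ?_⟩
      intro M' hM'
      have hNM : N * M = M' := by rw [← hM', ← hKm]; ring
      have hM'0 : 0 < M' := by rw [← hNM]; exact Nat.mul_pos hN hM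
      have hzM' : NeZero M' := ⟨hM'0.ne'⟩
      have h1 := H M' hNM
      rw [Multiset.map_add, Multiset.map_map] at h1
      have h2 : s.map (iota (N * K) : ZMod m → ZMod M') =
          s.map ((iota N : ZMod M → ZMod M') ∘ (iota K : ZMod m → ZMod M)) := by
        refine Multiset.map_congr rfl fun a _ => ?_
        rw [Function.comp_apply, iota_comp hNM]
      rw [h2]
      have h3 := hW.iota (m := M') (k := N) hNM
      simp only [Multiset.insert_eq_cons, Multiset.map_cons, Multiset.map_singleton] at h1 h3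
      refine generated_remove (p := p) (b := iota N b) (c := iota N (-((p : ZMod M) * b)))
        (fun h => hb0 (iota_eq_zero hNM h)) (fun h => hpb' (iota_eq_zero hNM h)) h3 ?_
      exact generated_mono (fun t ht => Or.inr ht) h1

open scoped Classical in
/-- **The parity theorem for products of Gauss sums.** -/
theorem gauss_parity {m : ℕ} (hp : p.Prime) (hm : 0 < m) (hpm : p.Coprime m)
    {s : Multiset (ZMod m)} (h0 : (0 : ZMod m) ∉ s) (he : Even (Multiset.card s)) (hr : Rel0 p s)
    (hne : s ≠ 0)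
    (hpar : ∀ a : ZMod m, Even (s.countP (fun b => Relation.EqvGen (Link p) a b))) :
    GConcl p m s := by
  have hz : NeZero m := ⟨hm.ne'⟩
  have hp1 : 0 < p - 1 := by have := hp.one_lt; omega
  have hM : 0 < (p - 1) * m := Nat.mul_pos hp1 hm
  have hzM : NeZero ((p - 1) * m) := ⟨hM.ne'⟩
  have hpM : p.Coprime ((p - 1) * m) := by
    refine Nat.Coprime.mul_right ?_ hpm
    rw [hp.coprime_iff_not_dvd]
    intro h
    have := Nat.le_of_dvd hp1 h
    omega
  obtain ⟨s', hT, hne', ⟨x, rfl, hx, hxe⟩, H⟩ := extend (p := p) (K := p - 1) (u := 1) hp hm rfl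
    (by ring) (Nat.coprime_one_left _) hpM h0 he hr
  refine H (parity_main hp hM hpM hT (hne' hne) ?_)
  intro a
  rw [Multiset.countP_add]
  refine (even_iota rfl hpar a).add ?_
  rcases Multiset.empty_or_exists_mem x with hx0 | ⟨c, hc⟩
  · rw [hx0]; simp
  · have hx1 : ∀ b ∈ x, b ≠ 0 := fun b hb h => hT.1 (Multiset.mem_add.mpr (Or.inr (h ▸ hb)))
    have h1 : ∀ b ∈ x, (Relation.EqvGen (Link p) a b ↔ Relation.EqvGen (Link p) a c) := by
      intro b hb
      have h2 : Relation.EqvGen (Link p) b c := Relation.EqvGen.rel _ _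
        ⟨hx1 b hb, hx1 c hc, Or.inl (by rw [hx b hb c hc])⟩
      exact ⟨fun h3 => h3.trans _ _ _ h2, fun h3 => h3.trans _ _ _ (Relation.EqvGen.symm _ _ h2)⟩
    by_cases h2 : Relation.EqvGen (Link p) a c
    · rw [Multiset.countP_eq_card.mpr fun b hb => (h1 b hb).mpr h2]
      exact hxe
    · rw [Multiset.countP_eq_zero.mpr fun b hb h3 => h2 ((h1 b hb).mp h3)]
      exact Even.zero

/-- from Tate characters to products of Gauss sums -/
theorem gauss_of_level {m : ℕ} (hp : p.Prime) (hm : 0 < m) (hpm : p.Coprime m)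
    {s : Multiset (ZMod m)} (h0 : (0 : ZMod m) ∉ s) (he : Even (Multiset.card s)) (hr : Rel0 p s)
    (hne : s ≠ 0)
    (H : ∀ K : ℕ, 0 < K → p.Coprime K → (∀ q, q.Prime → q ∣ K → q ∣ m) →
      ∀ s' : Multiset (ZMod (K * m)), IsTate p (K * m) s' → s' ≠ 0 → Concl p (K * m) s') :
    GConcl p m s := by
  have hdec : ∀ n : ℕ, 0 < n → ∃ K u : ℕ, K * u = n ∧ u.Coprime m ∧
      ∀ q, q.Prime → q ∣ K → q ∣ m := by
    intro n
    induction n using Nat.strong_induction_on with
    | _ n ih =>
    intro hn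
    by_cases hc : n.Coprime m
    · exact ⟨1, n, one_mul n, hc, fun q hq h => absurd (Nat.dvd_one.mp h) hq.one_lt.ne'⟩
    · obtain ⟨q, hq, hqn, hqm⟩ := Nat.Prime.not_coprime_iff_dvd.mp hc
      obtain ⟨n', rfl⟩ := hqn
      have hn' : 0 < n' := Nat.pos_of_ne_zero (by rintro rfl; simp at hn)
      obtain ⟨K, u, hKu, hu, hK⟩ := ih n' (by
        have := hq.one_lt
        nlinarith) hn'
      refine ⟨q * K, u, by rw [← hKu]; ring, hu, fun r hr h => ?_⟩
      rcases hr.dvd_mul.mp h with h | h
      · rw [(Nat.prime_dvd_prime_iff_eq hr hq).mp h]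
        exact hqm
      · exact hK r hr h
  have hp1 : 0 < p - 1 := by have := hp.one_lt; omega
  obtain ⟨K, u, hKu, hu, hK⟩ := hdec (p - 1) hp1
  have hK0 : 0 < K := Nat.pos_of_ne_zero (by rintro rfl; rw [zero_mul] at hKu; omega)
  have hpK : p.Coprime K := by
    rw [hp.coprime_iff_not_dvd]
    intro h
    have h1 : p ∣ p - 1 := h.trans (Dvd.intro _ hKu)
    have := Nat.le_of_dvd hp1 h1
    omega
  have huM : u.Coprime (K * m) := by
    refine Nat.Coprime.mul_right ?_ hu
    by_contra hc
    obtain ⟨q, hq, hqu, hqK⟩ := Nat.Prime.not_coprime_iff_dvd.mp hc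
    have h1 := Nat.dvd_gcd hqu (hK q hq hqK)
    rw [hu] at h1
    exact hq.one_lt.ne' (Nat.dvd_one.mp h1)
  obtain ⟨s', hT, hne', _, H'⟩ := extend (p := p) hp hm rfl hKu huM (Nat.Coprime.mul_right hpK hpm)
    h0 he hr
  exact H' (H K hK0 hpK hK s' hT (hne' hne))

end Pool.Agent.H547_as
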