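import Pool.Agent.H547_as.Basic

/-!
# Finite generation with a uniform bound
-/

set_option autoImplicit false

namespace Pool.Agent.H547_as

open Finset Pool.Agent.H916R2 Pool.Agent.H916T Pool.Agent.H916U Pool.Agent.H916Z Pool.Agent.H916Q
  Pool.Agent.H916Y Pool.Agent.H547_pp

variable {p m : ℕ}

/-- the condition -/
def GT (p : ℕ) {m : ℕ} (s : Multiset (ZMod m)) : Prop :=
  (0 : ZMod m) ∉ s ∧ Even (Multiset.card s) ∧ Rel0 p s

lemma gt_zero : GT p (0 : Multiset (ZMod m)) := by
  refine ⟨by simp, by simp, fun t => by simp⟩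

lemma gt_add {s t : Multiset (ZMod m)} (hs : GT p s) (ht : GT p t) : GT p (s + t) := by
  refine ⟨?_, ?_, hs.2.2.add ht.2.2⟩
  · rw [Multiset.mem_add, not_or]; exact ⟨hs.1, ht.1⟩
  · rw [Multiset.card_add]; exact hs.2.1.add ht.2.1

open scoped Classical in
/-- the parities -/
noncomputable def par {Q : Type} (cl : ZMod m → Q) (s : Multiset (ZMod m)) : Q → ZMod 2 :=
  fun C => (s.map fun a => if cl a = C then (1 : ZMod 2) else 0).sum

lemma par_zero {Q : Type} (cl : ZMod m → Q) : par cl (0 : Multiset (ZMod m)) = 0 := by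
  funext C; simp [par]

lemma par_add {Q : Type} (cl : ZMod m → Q) (s t : Multiset (ZMod m)) :
    par cl (s + t) = par cl s + par cl t := by
  funext C
  simp only [par, Multiset.map_add, Multiset.sum_add, Pi.add_apply]

/-- the space of the parity vectors -/
noncomputable def parSpace (p : ℕ) {m : ℕ} {Q : Type} (cl : ZMod m → Q) :
    Submodule (ZMod 2) (Q → ZMod 2) where
  carrier := {e | ∃ s : Multiset (ZMod m), GT p s ∧ par cl s = e}
  zero_mem' := ⟨0, gt_zero, par_zero cl⟩
  add_mem' := by
    rintro _ _ ⟨s, hs, rfl⟩ ⟨t, ht, rfl⟩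
    exact ⟨s + t, gt_add hs ht, par_add cl s t⟩
  smul_mem' := by
    rintro c _ ⟨s, hs, rfl⟩
    have hc : ∀ c : ZMod 2, c = 0 ∨ c = 1 := by decide
    rcases hc c with rfl | rfl
    · rw [zero_smul]
      exact ⟨0, gt_zero, par_zero cl⟩
    · rw [one_smul]
      exact ⟨s, hs, rfl⟩

lemma par_sum_card {Q : Type} [Fintype Q] (cl : ZMod m → Q) (s : Multiset (ZMod m)) :
    ∑ C, par cl s C = ((Multiset.card s : ℕ) : ZMod 2) := by
  classical
  unfold par
  induction s using Multiset.induction_on with
  | empty => simp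
  | cons a s ih =>
    simp only [Multiset.map_cons, Multiset.sum_cons, sum_add_distrib, ih, sum_ite_eq,
      mem_univ, if_true, Multiset.card_cons, Nat.cast_add, Nat.cast_one]
    ring

theorem finrank_le {Q : Type} [Fintype Q] (cl : ZMod m → Q) (S : Set Q)
    (hS : ∀ a, a ≠ 0 → cl a ∈ S) :
    Module.finrank (ZMod 2) (parSpace p cl) ≤ S.ncard - 1 := by
  classical
  have hSf : S.Finite := Set.toFinite S
  let E : Finset (Q → ZMod 2) := univ.filter fun e : Q → ZMod 2 =>
    (∀ C, C ∉ hSf.toFinset → e C = 0) ∧ ∑ C, e C = 0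
  have hE : E.card ≤ 2 ^ (S.ncard - 1) := by
    have h1 := card_even_vectors hSf.toFinset
    rw [← Set.ncard_eq_toFinset_card S hSf] at h1
    calc E.card = _ := by simp only [E]
      _ ≤ _ := h1
  have hsub : ∀ e : parSpace p cl, e.1 ∈ E := by
    rintro ⟨_, s, hs, rfl⟩
    rw [mem_filter]
    refine ⟨mem_univ _, ?_, ?_⟩
    · intro C hC
      rw [hSf.mem_toFinset] at hC
      unfold par
      apply Multiset.sum_eq_zero
      intro x hx
      obtain ⟨a, ha, rfl⟩ := Multiset.mem_map.mp hx
      rw [if_neg]
      rintro rfl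
      exact hC (hS a fun h => hs.1 (h ▸ ha))
    · rw [par_sum_card, ZMod.natCast_eq_zero_iff]
      exact even_iff_two_dvd.mp hs.2.1
  have hfin : Fintype (parSpace p cl) := Fintype.ofFinite _
  have hcard : Fintype.card (parSpace p cl) ≤ 2 ^ (S.ncard - 1) := by
    refine le_trans ?_ hE
    rw [← Fintype.card_coe E]
    exact Fintype.card_le_of_injective (fun e : parSpace p cl => (⟨e.1, hsub e⟩ : E))
      fun e e' h => Subtype.ext (congrArg (fun x : E => x.1) h)
  rw [Module.card_eq_pow_finrank (K := ZMod 2), ZMod.card] at hcard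
  exact (Nat.pow_le_pow_iff_right (by norm_num)).mp hcard

/-- **Uniform finite generation.** -/
theorem exists_generators {Q : Type} [Fintype Q] (cl : ZMod m → Q) (S : Set Q)
    (hS : ∀ a, a ≠ 0 → cl a ∈ S) (known : Multiset (ZMod m) → Prop)
    (hk : ∀ s : Multiset (ZMod m), GT p s → par cl s = 0 → known s) :
    ∃ E : Finset (Multiset (ZMod m)), E.card ≤ S.ncard - 1 ∧ (∀ u ∈ E, GT p u) ∧
      ∀ s : Multiset (ZMod m), GT p s → ∃ F ⊆ E, known (s + ∑ u ∈ F, u) := by
  classical
  let b := Module.finBasis (ZMod 2) (parSpace p cl)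
  have hu : ∀ i, ∃ u : Multiset (ZMod m), GT p u ∧ par cl u = (b i).1 := fun i => (b i).2
  choose u hGT hpar using hu
  have huinj : Function.Injective u := by
    intro i j hij
    apply b.injective
    apply Subtype.ext
    rw [← hpar i, ← hpar j, hij]
  refine ⟨univ.image u, ?_, ?_, ?_⟩
  · refine card_image_le.trans ?_
    rw [card_univ, Fintype.card_fin]
    exact finrank_le cl S hS
  · intro v hv
    obtain ⟨i, _, rfl⟩ := mem_image.mp hv
    exact hGT i
  · intro s hs
    let e : parSpace p cl := ⟨par cl s, s, hs, rfl⟩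
    let J := univ.filter fun i => b.repr e i ≠ 0
    refine ⟨J.image u, image_subset_image (subset_univ _), ?_⟩
    rw [sum_image (fun i _ j _ h => huinj h)]
    have hGTJ : GT p (∑ i ∈ J, u i) := by
      have : ∀ F : Finset (Fin (Module.finrank (ZMod 2) (parSpace p cl))),
          GT p (∑ i ∈ F, u i) := by
        intro F
        induction F using Finset.induction_on with
        | empty => simpa using gt_zero
        | insert i F hi ih => rw [sum_insert hi]; exact gt_add (hGT i) ih
      exact this J
    refine hk _ (gt_add hs hGTJ) ?_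
    rw [par_add]
    have h1 : par cl (∑ i ∈ J, u i) = ∑ i ∈ J, (b i).1 := by
      have : ∀ F : Finset (Fin (Module.finrank (ZMod 2) (parSpace p cl))),
          par cl (∑ i ∈ F, u i) = ∑ i ∈ F, (b i).1 := by
        intro F
        induction F using Finset.induction_on with
        | empty => simpa using par_zero cl
        | insert i F hi ih => rw [sum_insert hi, sum_insert hi, par_add, ih, hpar]
      exact this J
    have h2 : par cl s = ∑ i ∈ J, (b i).1 := by
      have h3 := b.sum_repr e
      have h4 : (∑ i, b.repr e i • b i : parSpace p cl) = ∑ i ∈ J, b i := by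
        rw [← sum_filter_add_sum_filter_not univ (fun i => b.repr e i ≠ 0)]
        have h5 : ∑ i ∈ univ.filter (fun i => ¬ b.repr e i ≠ 0), b.repr e i • b i = 0 := by
          refine sum_eq_zero fun i hi => ?_
          rw [mem_filter, not_not] at hi
          rw [hi.2, zero_smul]
        rw [h5, add_zero]
        refine sum_congr rfl fun i hi => ?_
        rw [mem_filter] at hi
        have hc : ∀ c : ZMod 2, c ≠ 0 → c = 1 := by decide
        rw [hc _ hi.2, one_smul]
      rw [h4] at h3
      have h6 := congrArg (fun x : parSpace p cl => x.1) h3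
      simp only [Submodule.coe_sum] at h6
      exact h6.symm
    rw [h1, h2]
    funext C
    have : ∀ z : ZMod 2, z + z = 0 := by decide
    exact this _

end Pool.Agent.H547_as
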