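import Pool.Agent.H547_as.Basic

/-!
# Counting for Artin-Schreier varieties with paired exponents
-/

set_option autoImplicit false

namespace Pool.Agent.H547_as

open Finset Pool.Agent.H547_pp

/-- the general counting lemma -/
theorem count_pairs {B X A Γ T : Type} [Finite B] [Finite X] [AddCommGroup A] [AddCommGroup Γ]
    [Finite Γ] (h2 : ∀ y : Γ, y + y = 0) (sh : X → T) (f : X → A) (γ : X → Γ)
    (fst snd : B → X) (hinj : ∀ b b', fst b = fst b' → snd b = snd b' → b = b')
    (hsh : ∀ b, sh (fst b) = sh (snd b)) (glue : ∀ x z, sh x = sh z → ∃ b, fst b = x ∧ snd b = z)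
    (w : B → A) (hw : ∀ b, w b = f (fst b) - f (snd b)) (par : B → Γ)
    (hpar : ∀ b, par b = γ (fst b) + γ (snd b)) (e : Γ) :
    Set.ncard {b : B | w b = 0 ∧ par b = e} ≤ Set.ncard {b : B | w b = 0 ∧ par b = 0} := by
  classical
  have hX : Fintype X := Fintype.ofFinite X
  have hΓ : Fintype Γ := Fintype.ofFinite Γ
  have hneg : ∀ y : Γ, -y = y := fun y => neg_eq_of_add_eq_zero_left (h2 y)
  let F : X → T × A := fun x => (sh x, f x)
  have key : ∀ e : Γ, Set.ncard {b : B | w b = 0 ∧ par b = e} =
      (univ.filter fun q : X × X => F q.1 = F q.2 ∧ γ q.2 = γ q.1 - e).card := by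
    intro e
    rw [← Set.ncard_coe_finset]
    refine Set.ncard_congr (fun b _ => ((fst b, snd b) : X × X)) ?_ ?_ ?_
    · rintro b ⟨h3, h4⟩
      rw [mem_coe, mem_filter]
      refine ⟨mem_univ _, Prod.ext (hsh b) ?_, ?_⟩
      · rw [hw] at h3
        exact sub_eq_zero.mp h3
      · rw [hpar] at h4
        rw [← h4, sub_add_cancel_left, hneg]
    · intro b b' _ _ h
      exact hinj b b' (congrArg Prod.fst h) (congrArg Prod.snd h)
    · rintro ⟨x, z⟩ hq
      rw [mem_coe, mem_filter] at hq
      obtain ⟨_, h3, h4⟩ := hq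
      obtain ⟨b, hb1, hb2⟩ := glue x z (congrArg Prod.fst h3)
      have h5 : f x = f z := congrArg Prod.snd h3
      simp only at h4
      refine ⟨b, ⟨?_, ?_⟩, Prod.ext hb1 hb2⟩
      · rw [hw, hb1, hb2, h5, sub_self]
      · rw [hpar, hb1, hb2, h4, add_sub, h2, zero_sub, hneg]
  rw [key e, key 0]
  simp only [sub_zero]
  have h6 := card_pairs_le F γ e
  calc _ = _ := by congr!
    _ ≤ _ := h6
    _ = _ := by congr!

/-- the total number -/
theorem count_pairs_total {B X A Q T : Type} [Finite B] [Finite X] [AddCommGroup A]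
    [Fintype Q] (sh : X → T) (f : X → A) (γ : X → Q → ZMod 2)
    (fst snd : B → X) (hinj : ∀ b b', fst b = fst b' → snd b = snd b' → b = b')
    (hsh : ∀ b, sh (fst b) = sh (snd b)) (glue : ∀ x z, sh x = sh z → ∃ b, fst b = x ∧ snd b = z)
    (w : B → A) (hw : ∀ b, w b = f (fst b) - f (snd b)) (par : B → Q → ZMod 2)
    (hpar : ∀ b, par b = γ (fst b) + γ (snd b)) (S : Set Q)
    (hS : ∀ b C, C ∉ S → par b C = 0) (hE : ∀ b, ∑ C, par b C = 0) (K : Set B)
    (hK : ∀ b, w b = 0 → par b = 0 → b ∈ K) :
    Set.ncard {b : B | w b = 0} ≤ 2 ^ (S.ncard - 1) * K.ncard := by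
  classical
  have hSf : S.Finite := Set.toFinite S
  let E : Finset (Q → ZMod 2) := univ.filter fun e : Q → ZMod 2 =>
    (∀ C, C ∉ hSf.toFinset → e C = 0) ∧ ∑ C, e C = 0
  have hEc : E.card ≤ 2 ^ (S.ncard - 1) := by
    have h1 := card_even_vectors hSf.toFinset
    rw [← Set.ncard_eq_toFinset_card S hSf] at h1
    calc E.card = _ := by simp only [E]
      _ ≤ _ := h1
  have h2 : ∀ y : Q → ZMod 2, y + y = 0 := by
    intro y
    funext C
    have : ∀ z : ZMod 2, z + z = 0 := by decide
    exact this (y C)
  have hsub : {b : B | w b = 0} ⊆ ⋃ e ∈ E, {b : B | w b = 0 ∧ par b = e} := by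
    intro b hb
    simp only [Set.mem_iUnion]
    refine ⟨par b, ?_, hb, rfl⟩
    rw [mem_filter]
    refine ⟨mem_univ _, ?_, hE b⟩
    intro C hC
    rw [hSf.mem_toFinset] at hC
    exact hS b C hC
  calc Set.ncard {b : B | w b = 0}
      ≤ Set.ncard (⋃ e ∈ E, {b : B | w b = 0 ∧ par b = e}) :=
        Set.ncard_le_ncard hsub (Set.toFinite _)
    _ ≤ ∑ e ∈ E, Set.ncard {b : B | w b = 0 ∧ par b = e} := by
        have h5 : ∀ F : Finset (Q → ZMod 2),
            Set.ncard (⋃ e ∈ F, {b : B | w b = 0 ∧ par b = e}) ≤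
              ∑ e ∈ F, Set.ncard {b : B | w b = 0 ∧ par b = e} := by
          intro F
          induction F using Finset.induction_on with
          | empty => simp
          | insert e F he ih =>
            rw [sum_insert he, Finset.set_biUnion_insert]
            exact (Set.ncard_union_le _ _).trans (Nat.add_le_add_left ih _)
        exact h5 E
    _ ≤ ∑ _e ∈ E, K.ncard := by
        refine sum_le_sum fun e _ =>
          (count_pairs h2 sh f γ fst snd hinj hsh glue w hw par hpar e).trans ?_
        refine Set.ncard_le_ncard ?_ (Set.toFinite _)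
        rintro I ⟨h3, h4⟩
        exact hK I h3 h4
    _ = E.card * K.ncard := by rw [sum_const, smul_eq_mul]
    _ ≤ 2 ^ (S.ncard - 1) * K.ncard := Nat.mul_le_mul_right _ hEc

section

variable {ι : Type} [Fintype ι] {m : ℕ} {r k : ι → ℕ}

/-- the full elements -/
abbrev PE (m : ℕ) {ι : Type} (r k : ι → ℕ) : Type :=
  ∀ j : ι, Option (Fin (r j) × (Fin (k j) → ZMod m × ZMod m))

/-- the halves -/
abbrev PH (m : ℕ) {ι : Type} (r k : ι → ℕ) : Type :=
  ∀ j : ι, Option (Fin (r j) × (Fin (k j) → ZMod m))

/-- first half -/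
def fstP (b : PE m r k) : PH m r k := fun j => (b j).map fun a => (a.1, fun l => (a.2 l).1)

/-- negative of the second half -/
def sndP (b : PE m r k) : PH m r k := fun j => (b j).map fun a => (a.1, fun l => -(a.2 l).2)

/-- the shape -/
def shP (x : PH m r k) : ∀ j : ι, Option (Fin (r j)) := fun j => (x j).map Prod.fst

/-- gluing -/
def glueP (x z : PH m r k) : PE m r k := fun j =>
  (x j).bind fun a => (z j).map fun a' => (a.1, fun l => (a.2 l, -(a'.2 l)))

/-- sum of a function over the residues -/
def sumE {M : Type} [AddCommMonoid M] (b : PE m r k) (G : ZMod m → M) : M :=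
  ∑ j, (b j).elim 0 fun a => ∑ l, G (a.2 l).1 + ∑ l, G (a.2 l).2

/-- sum of a function over the residues -/
def sumX {M : Type} [AddCommMonoid M] (x : PH m r k) (G : ZMod m → M) : M :=
  ∑ j, (x j).elim 0 fun a => ∑ l, G (a.2 l)

omit [Fintype ι] in
lemma injP {b b' : PE m r k} (h1 : fstP b = fstP b') (h2 : sndP b = sndP b') : b = b' := by
  funext j
  have e1 := congrFun h1 j
  have e2 := congrFun h2 j
  simp only [fstP, sndP] at e1 e2
  rcases hb : b j with _ | a <;> rcases hb' : b' j with _ | a'
  · rfl
  · rw [hb, hb'] at e1; simp at e1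
  · rw [hb, hb'] at e1; simp at e1
  · rw [hb, hb'] at e1 e2
    simp only [Option.map_some, Option.some.injEq, Prod.mk.injEq] at e1 e2
    congr 1
    refine Prod.ext e1.1 (funext fun l => Prod.ext (congrFun e1.2 l) ?_)
    exact neg_injective (congrFun e2.2 l)

omit [Fintype ι] in
lemma sh_fst_snd (b : PE m r k) : shP (fstP b) = shP (sndP b) := by
  funext j
  simp only [shP, fstP, sndP, Option.map_map]
  rfl

omit [Fintype ι] in
lemma fst_glueP {x z : PH m r k} (h : shP x = shP z) : fstP (glueP x z) = x := by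
  funext j
  have e := congrFun h j
  simp only [shP] at e
  simp only [fstP, glueP]
  rcases hx : x j with _ | a <;> rcases hz : z j with _ | a'
  · rfl
  · rfl
  · rw [hx, hz] at e; simp at e
  · rfl

omit [Fintype ι] in
lemma snd_glueP {x z : PH m r k} (h : shP x = shP z) : sndP (glueP x z) = z := by
  funext j
  have e := congrFun h j
  simp only [shP] at e
  simp only [sndP, glueP]
  rcases hx : x j with _ | a <;> rcases hz : z j with _ | a'
  · rfl
  · rw [hx, hz] at e; simp at e
  · rfl
  · rw [hx, hz] at e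
    simp only [Option.map_some, Option.some.injEq] at e
    simp only [Option.bind_some, Option.map_some, neg_neg, e]

lemma sumE_eq {M : Type} [AddCommMonoid M] (b : PE m r k) (G : ZMod m → M) :
    sumE b G = sumX (fstP b) G + sumX (sndP b) fun a => G (-a) := by
  unfold sumE sumX
  rw [← sum_add_distrib]
  refine sum_congr rfl fun j _ => ?_
  simp only [fstP, sndP]
  rcases b j with _ | a
  · simp
  · simp

lemma sumX_neg {M : Type} [AddCommGroup M] (x : PH m r k) (G : ZMod m → M) :
    (sumX x fun a => - G a) = - sumX x G := by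
  unfold sumX
  rw [← sum_neg_distrib]
  refine sum_congr rfl fun j _ => ?_
  rcases x j with _ | a
  · simp
  · simp

open scoped Classical in
/-- the indicator function of a class -/
noncomputable def par1 {Q : Type} (cl : ZMod m → Q) (a : ZMod m) (C : Q) : ZMod 2 :=
  if cl a = C then 1 else 0

/-- **The counting theorem for varieties with paired exponents.** -/
theorem count_paired [NeZero m] {A Q : Type} [AddCommGroup A] [Fintype Q] (cl : ZMod m → Q)
    (hcl : ∀ a, cl (-a) = cl a) (S : Set Q) (w : ZMod m → A) (hw : ∀ a, w (-a) = - w a)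
    (P : ∀ j : ι, Fin (k j) → ZMod m → Prop) (hP : ∀ j l a, P j l a → P j l (-a))
    (hPS : ∀ j l a, P j l a → cl a ∈ S) (c : ℕ) (T K : Set (PE m r k))
    (hT : ∀ b, b ∈ T ↔ ((∀ j a, b j = some a → ∀ l, P j l (a.2 l).1 ∧ P j l (a.2 l).2) ∧
      ∑ j, (b j).elim 0 (fun _ => k j) = c) ∧ sumE b w = 0)
    (hK : ∀ b ∈ T, (∀ C, sumE b (fun a => par1 cl a C) = 0) → b ∈ K) :
    T.ncard ≤ 2 ^ (S.ncard - 1) * K.ncard := by
  classical
  let B := {b : PE m r k // (∀ j a, b j = some a → ∀ l, P j l (a.2 l).1 ∧ P j l (a.2 l).2) ∧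
      ∑ j, (b j).elim 0 (fun _ => k j) = c}
  let X := {x : PH m r k // (∀ j a, x j = some a → ∀ l, P j l (a.2 l)) ∧
      ∑ j, (x j).elim 0 (fun _ => k j) = c}
  have hpar1 : ∀ a C, par1 cl (-a) C = par1 cl a C := fun a C => by
    unfold par1; rw [hcl]
  let fst : B → X := fun b => ⟨fstP b.1, by
    obtain ⟨b, h1, h2⟩ := b
    refine ⟨?_, ?_⟩
    · intro j a ha l
      simp only [fstP] at ha
      rcases hb : b j with _ | a'
      · rw [hb] at ha; simp at ha
      · rw [hb] at ha
        simp only [Option.map_some, Option.some.injEq] at ha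
        rw [← ha]
        exact (h1 j a' hb l).1
    · refine (sum_congr rfl fun j _ => ?_).trans h2
      simp only [fstP]
      rcases b j with _ | a' <;> rfl⟩
  let snd : B → X := fun b => ⟨sndP b.1, by
    obtain ⟨b, h1, h2⟩ := b
    refine ⟨?_, ?_⟩
    · intro j a ha l
      simp only [sndP] at ha
      rcases hb : b j with _ | a'
      · rw [hb] at ha; simp at ha
      · rw [hb] at ha
        simp only [Option.map_some, Option.some.injEq] at ha
        rw [← ha]
        exact hP _ _ _ (h1 j a' hb l).2
    · refine (sum_congr rfl fun j _ => ?_).trans h2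
      simp only [sndP]
      rcases b j with _ | a' <;> rfl⟩
  let K' : Set B := {b | b.1 ∈ K}
  have hmain := count_pairs_total (B := B) (X := X) (A := A) (Q := Q)
    (fun x => shP x.1) (fun x => sumX x.1 w) (fun x C => sumX x.1 fun a => par1 cl a C) fst snd
    (fun b b' h1 h2 => Subtype.ext (injP (congrArg Subtype.val h1) (congrArg Subtype.val h2)))
    (fun b => sh_fst_snd b.1) (by
      intro x z h
      refine ⟨⟨glueP x.1 z.1, ?_, ?_⟩, ?_, ?_⟩
      · intro j a ha l
        simp only [glueP] at ha
        rcases hx : x.1 j with _ | a' <;> rcases hz : z.1 j with _ | a''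
        · rw [hx] at ha; simp at ha
        · rw [hx] at ha; simp at ha
        · rw [hx, hz] at ha; simp at ha
        · rw [hx, hz] at ha
          simp only [Option.bind_some, Option.map_some, Option.some.injEq] at ha
          rw [← ha]
          exact ⟨x.2.1 j a' hx l, hP _ _ _ (z.2.1 j a'' hz l)⟩
      · refine (sum_congr rfl fun j _ => ?_).trans x.2.2
        have e := congrFun h j
        simp only [shP] at e
        simp only [glueP]
        rcases hx : x.1 j with _ | a' <;> rcases hz : z.1 j with _ | a''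
        · rfl
        · rfl
        · rw [hx, hz] at e; simp at e
        · rfl
      · exact Subtype.ext (fst_glueP h)
      · exact Subtype.ext (snd_glueP h))
    (fun b => sumE b.1 w) (by
      intro b
      rw [sumE_eq, sub_eq_add_neg, ← sumX_neg]
      simp only [hw]
      rfl)
    (fun b C => sumE b.1 fun a => par1 cl a C) (by
      intro b
      funext C
      rw [sumE_eq, Pi.add_apply]
      simp only [hpar1]
      rfl) S (by
      intro b C hC
      unfold sumE
      refine sum_eq_zero fun j _ => ?_
      rcases hb : b.1 j with _ | a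
      · rfl
      · have h1 := b.2.1 j a hb
        simp only [Option.elim_some, par1]
        rw [sum_eq_zero, sum_eq_zero, add_zero]
        · intro l _
          rw [if_neg]
          rintro rfl
          exact hC (hPS _ _ _ (h1 l).2)
        · intro l _
          rw [if_neg]
          rintro rfl
          exact hC (hPS _ _ _ (h1 l).1)) (by
      intro b
      unfold sumE
      rw [sum_comm]
      refine sum_eq_zero fun j _ => ?_
      rcases b.1 j with _ | a
      · simp
      · simp only [Option.elim_some, par1, sum_add_distrib]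
        rw [sum_comm, sum_comm (s := univ) (t := univ) (f := fun C l => if cl (a.2 l).2 = C
          then (1 : ZMod 2) else 0)]
        simp only [sum_ite_eq, mem_univ, if_true]
        have : ∀ z : ZMod 2, z + z = 0 := by decide
        exact this _) K' (by
      intro b h1 h2
      exact hK b.1 ((hT b.1).mpr ⟨b.2, h1⟩) fun C => congrFun h2 C)
  have hTcard : T.ncard = Set.ncard {b : B | sumE b.1 w = 0} := by
    symm
    refine Set.ncard_congr (fun b _ => b.1) ?_ ?_ ?_
    · intro b hb
      exact (hT b.1).mpr ⟨b.2, hb⟩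
    · intro b b' _ _ h
      exact Subtype.ext h
    · intro b hb
      obtain ⟨h1, h2⟩ := (hT b).mp hb
      exact ⟨⟨b, h1⟩, h2, rfl⟩
  have hKcard : K'.ncard ≤ K.ncard := by
    refine Set.ncard_le_ncard_of_injOn (fun b : B => b.1) (fun b hb => hb) ?_ (Set.toFinite _)
    intro b _ b' _ h
    exact Subtype.ext h
  rw [hTcard]
  exact hmain.trans (Nat.mul_le_mul_left _ hKcard)

end

end Pool.Agent.H547_as
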