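import Pool.Agent.H547_as.Basic

/-!
# Residues whose orders are prime powers or twice prime powers
-/

set_option autoImplicit false

namespace Pool.Agent.H547_as

open Finset Pool.Agent.H916R2 Pool.Agent.H916T Pool.Agent.H916U Pool.Agent.H916Z Pool.Agent.H916Q
  Pool.Agent.H916Y

/-- a prime power or twice a prime power -/
def PP (n : ℕ) : Prop := ∃ ℓ k : ℕ, ℓ.Prime ∧ (n = ℓ ^ k ∨ n = 2 * ℓ ^ k)

variable {p : ℕ}

lemma smul_of_modEq {m : ℕ} [NeZero m] {a : ZMod m} {t t' : (ZMod m)ˣ}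
    (h : ((t : ZMod m).val : ℤ) ≡ ((t' : ZMod m).val : ℤ) [ZMOD (addOrderOf a : ℤ)]) :
    (t : ZMod m) * a = (t' : ZMod m) * a := by
  have h1 : ((t : ZMod m).val : ℕ) • a = ((t' : ZMod m).val : ℕ) • a := by
    have h2 : (((t : ZMod m).val : ℕ) : ℤ) • a = (((t' : ZMod m).val : ℕ) : ℤ) • a :=
      (zsmul_eq_zsmul_iff_modEq).mpr h
    simpa using h2
  rw [nsmul_eq_mul, nsmul_eq_mul, ZMod.natCast_zmod_val, ZMod.natCast_zmod_val] at h1
  exact h1

lemma smul_neg_of_modEq {m : ℕ} [NeZero m] {a : ZMod m} {t t' : (ZMod m)ˣ}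
    (h : ((t : ZMod m).val : ℤ) ≡ -((t' : ZMod m).val : ℤ) [ZMOD (addOrderOf a : ℤ)]) :
    (t : ZMod m) * a = -((t' : ZMod m) * a) := by
  have h2 : (((t : ZMod m).val : ℕ) : ℤ) • a = (-(((t' : ZMod m).val : ℕ) : ℤ)) • a :=
    (zsmul_eq_zsmul_iff_modEq).mpr h
  rw [neg_zsmul] at h2
  simp only [natCast_zsmul] at h2
  rw [nsmul_eq_mul, nsmul_eq_mul, ZMod.natCast_zmod_val, ZMod.natCast_zmod_val] at h2
  exact h2

/-- a unit congruent to `t` modulo `c` and to `-t` modulo `d` -/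
lemma exists_unit {m c d : ℕ} (hm : 0 < m) (hcd : c * d = m) (hco : c.Coprime d) (t : (ZMod m)ˣ) :
    ∃ t' : (ZMod m)ˣ, ((t' : ZMod m).val : ℤ) ≡ ((t : ZMod m).val : ℤ) [ZMOD (c : ℤ)] ∧
      ((t' : ZMod m).val : ℤ) ≡ -((t : ZMod m).val : ℤ) [ZMOD (d : ℤ)] := by
  have hz : NeZero m := ⟨hm.ne'⟩
  set n := (t : ZMod m).val with hn
  have hnm : n.Coprime m := ZMod.val_coe_unit_coprime t
  have hd0 : 0 < d := Nat.pos_of_ne_zero (by rintro rfl; rw [mul_zero] at hcd; omega)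
  obtain ⟨n', hn'⟩ : ∃ n' : ℕ, ((n' : ℕ) : ℤ) ≡ -(n : ℤ) [ZMOD (d : ℤ)] := by
    refine ⟨(d - n % d), ?_⟩
    have h1 : n % d ≤ d := (Nat.mod_lt n hd0).le
    rw [Nat.cast_sub h1]
    have h2 : ((n % d : ℕ) : ℤ) ≡ (n : ℤ) [ZMOD (d : ℤ)] := by
      push_cast
      exact Int.mod_modEq _ _
    calc ((d : ℕ) : ℤ) - ((n % d : ℕ) : ℤ) ≡ 0 - (n : ℤ) [ZMOD (d : ℤ)] :=
          Int.ModEq.sub (by simp [Int.ModEq]) h2
      _ = -(n : ℤ) := by ring
  obtain ⟨x, hx1, hx2⟩ := Nat.chineseRemainder hco n n'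
  have hx1' : ((x : ℕ) : ℤ) ≡ (n : ℤ) [ZMOD (c : ℤ)] := (Int.natCast_modEq_iff).mpr hx1
  have hx2' : ((x : ℕ) : ℤ) ≡ -(n : ℤ) [ZMOD (d : ℤ)] :=
    ((Int.natCast_modEq_iff).mpr hx2).trans hn'
  have hxm : x.Coprime m := by
    rw [← hcd]
    refine Nat.Coprime.mul_right ?_ ?_
    · have h1 : n.Coprime c := Nat.Coprime.coprime_dvd_right (Dvd.intro _ hcd) hnm
      rw [Nat.coprime_iff_gcd_eq_one] at h1 ⊢
      rw [Nat.ModEq.gcd_eq hx1]
      exact h1
    · have h1 : n.Coprime d := Nat.Coprime.coprime_dvd_right (Dvd.intro_left _ hcd) hnm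
      by_contra hc
      obtain ⟨q, hq, hqx, hqd⟩ := Nat.Prime.not_coprime_iff_dvd.mp hc
      have h3 : ((q : ℕ) : ℤ) ∣ -(n : ℤ) - (x : ℤ) :=
        (Int.natCast_dvd_natCast.mpr hqd).trans hx2'.dvd
      have h4 : ((q : ℕ) : ℤ) ∣ (n : ℤ) := by
        have h5 : ((q : ℕ) : ℤ) ∣ (x : ℤ) := Int.natCast_dvd_natCast.mpr hqx
        have h6 := (h3.add h5).neg_right
        have e : -(-(n : ℤ) - (x : ℤ) + (x : ℤ)) = (n : ℤ) := by ring
        rw [e] at h6
        exact h6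
      have h7 := Nat.dvd_gcd (Int.natCast_dvd_natCast.mp h4) hqd
      rw [h1] at h7
      exact hq.one_lt.ne' (Nat.dvd_one.mp h7)
  refine ⟨ZMod.unitOfCoprime x hxm, ?_⟩
  have hval : ((ZMod.unitOfCoprime x hxm : ZMod m).val : ℤ) ≡ (x : ℤ) [ZMOD (m : ℤ)] := by
    rw [ZMod.coe_unitOfCoprime, ZMod.val_natCast]
    push_cast
    exact Int.mod_modEq _ _
  refine ⟨?_, ?_⟩
  · exact (hval.of_dvd (by rw [← hcd]; push_cast; exact Dvd.intro _ rfl)).trans hx1'
  · exact (hval.of_dvd (by rw [← hcd]; push_cast; exact Dvd.intro_left _ rfl)).trans hx2'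

/-- the elements whose orders are divisible by the odd prime `ℓ` satisfy the condition separately -/
lemma rel0_filter {m ℓ : ℕ} (hm : 0 < m) (hℓ : ℓ.Prime) (hℓ2 : ℓ ≠ 2) {s : Multiset (ZMod m)}
    (hr : Rel0 p s) (hPP : ∀ a ∈ s, PP (addOrderOf a)) :
    Rel0 p (s.filter fun a => ℓ ∣ addOrderOf a) := by
  have hz : NeZero m := ⟨hm.ne'⟩
  intro t
  obtain ⟨k, d, hd, hmd⟩ := Nat.exists_eq_pow_mul_and_not_dvd hm.ne' ℓ hℓ.ne_one
  have hcd : (ℓ ^ k).Coprime d := Nat.Coprime.pow_left k (hℓ.coprime_iff_not_dvd.mpr hd)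
  obtain ⟨t', h1, h2⟩ := exists_unit hm hmd.symm hcd t
  have hsplit : ∀ u : (ZMod m)ˣ, (s.map fun a => W p ((u : ZMod m) * a)).sum =
      ((s.filter fun a => ℓ ∣ addOrderOf a).map fun a => W p ((u : ZMod m) * a)).sum +
      ((s.filter fun a => ¬ ℓ ∣ addOrderOf a).map fun a => W p ((u : ZMod m) * a)).sum := by
    intro u
    rw [← Multiset.sum_add, ← Multiset.map_add, Multiset.filter_add_not]
  have hA : ((s.filter fun a => ℓ ∣ addOrderOf a).map fun a => W p ((t' : ZMod m) * a)).sum =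
      ((s.filter fun a => ℓ ∣ addOrderOf a).map fun a => W p ((t : ZMod m) * a)).sum := by
    congr 1
    refine Multiset.map_congr rfl fun a ha => ?_
    obtain ⟨has, hℓa⟩ := Multiset.mem_filter.mp ha
    congr 1
    apply smul_of_modEq
    obtain ⟨r, j, hr', hj⟩ := hPP a has
    have hrℓ : r = ℓ := by
      have h3 : ℓ ∣ r := by
        rcases hj with hj | hj
        · rw [hj] at hℓa
          exact hℓ.dvd_of_dvd_pow hℓa
        · rw [hj] at hℓa
          rcases hℓ.dvd_mul.mp hℓa with h4 | h4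
          · exact absurd ((Nat.prime_dvd_prime_iff_eq hℓ Nat.prime_two).mp h4) hℓ2
          · exact hℓ.dvd_of_dvd_pow h4
      exact ((Nat.prime_dvd_prime_iff_eq hℓ hr').mp h3).symm
    subst hrℓ
    have hdm : addOrderOf a ∣ m := addOrderOf_dvd_level a
    have hjk : r ^ j ∣ r ^ k := by
      have h3 : r ^ j ∣ r ^ k * d := by
        rw [← hmd]
        refine Dvd.dvd.trans ?_ hdm
        rcases hj with hj | hj
        · rw [hj]
        · rw [hj]; exact Dvd.intro_left _ rfl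
      exact (Nat.Coprime.pow_left j (hℓ.coprime_iff_not_dvd.mpr hd)).dvd_of_dvd_mul_right h3
    have h4 : ((t' : ZMod m).val : ℤ) ≡ ((t : ZMod m).val : ℤ) [ZMOD ((r ^ j : ℕ) : ℤ)] :=
      h1.of_dvd (by exact_mod_cast hjk)
    rcases hj with hj | hj
    · rw [hj]; exact h4
    · rw [hj]
      have h2m : 2 ∣ m := Dvd.dvd.trans (by rw [hj]; exact Dvd.intro _ rfl) hdm
      have hodd : ∀ u : (ZMod m)ˣ, ((u : ZMod m).val : ℤ) % 2 = 1 := by
        intro u
        have h5 : ((u : ZMod m).val).Coprime 2 :=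
          Nat.Coprime.coprime_dvd_right h2m (ZMod.val_coe_unit_coprime u)
        have h6 : ((u : ZMod m).val) % 2 = 1 := by
          rcases Nat.mod_two_eq_zero_or_one ((u : ZMod m).val) with h | h
          · exfalso
            have h7 : 2 ∣ Nat.gcd ((u : ZMod m).val) 2 :=
              Nat.dvd_gcd (Nat.dvd_of_mod_eq_zero h) dvd_rfl
            rw [h5] at h7
            exact absurd (Nat.dvd_one.mp h7) (by norm_num)
          · exact h
        omega
      have h7 : ((t' : ZMod m).val : ℤ) ≡ ((t : ZMod m).val : ℤ) [ZMOD 2] := by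
        unfold Int.ModEq
        rw [hodd t, hodd t']
      have hco : (2 : ℤ).natAbs.Coprime ((r ^ j : ℕ) : ℤ).natAbs := by
        simp only [Int.natAbs_natCast]
        exact Nat.Coprime.pow_right j ((Nat.coprime_primes Nat.prime_two hr').mpr (Ne.symm hℓ2))
      have h8 := (Int.modEq_and_modEq_iff_modEq_mul hco).mp ⟨h7, h4⟩
      push_cast at h8 ⊢
      exact h8
  have hB : ((s.filter fun a => ¬ ℓ ∣ addOrderOf a).map fun a => W p ((t' : ZMod m) * a)).sum =
      -((s.filter fun a => ¬ ℓ ∣ addOrderOf a).map fun a => W p ((t : ZMod m) * a)).sum := by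
    rw [← Multiset.sum_map_neg', Multiset.map_map]
    congr 1
    refine Multiset.map_congr rfl fun a ha => ?_
    obtain ⟨has, hℓa⟩ := Multiset.mem_filter.mp ha
    have hdm : addOrderOf a ∣ d := by
      have h3 : addOrderOf a ∣ ℓ ^ k * d := by
        rw [← hmd]; exact addOrderOf_dvd_level a
      exact (Nat.Coprime.pow_right k
        ((hℓ.coprime_iff_not_dvd.mpr hℓa).symm)).dvd_of_dvd_mul_left h3
    have h4 : (t' : ZMod m) * a = -((t : ZMod m) * a) :=
      smul_neg_of_modEq (h2.of_dvd (by exact_mod_cast hdm))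
    rw [Function.comp_apply, h4, W_neg]
  have e1 := hr t
  have e2 := hr t'
  rw [hsplit] at e1 e2
  rw [hA, hB] at e2
  omega

lemma odd_order {ℓ e kk : ℕ} (hℓ : ℓ.Prime) (hℓ2 : ℓ ≠ 2) (hkk : kk = 1 ∨ kk = 2)
    (hpc : p.Coprime (kk * ℓ ^ e)) (hord : Odd (orderOf (p : ZMod ℓ))) :
    Odd (orderOf (p : ZMod (kk * ℓ ^ e))) := by
  set f := orderOf (p : ZMod ℓ) with hf
  have h1 : (ℓ : ℤ) ∣ (p : ℤ) ^ f - 1 := by
    rw [← (ZMod.intCast_eq_intCast_iff_dvd_sub 1 ((p : ℤ) ^ f) ℓ)]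
    push_cast
    exact (pow_orderOf_eq_one _).symm
  have h2 : ((ℓ : ℤ) ^ (e + 1)) ∣ ((p : ℤ) ^ f) ^ ℓ ^ e - 1 ^ ℓ ^ e := dvd_sub_pow_of_dvd_sub h1 e
  have h3 : ((ℓ ^ e : ℕ) : ℤ) ∣ (p : ℤ) ^ (f * ℓ ^ e) - 1 := by
    rw [one_pow, ← pow_mul] at h2
    refine Dvd.dvd.trans ?_ h2
    push_cast
    exact pow_dvd_pow _ (Nat.le_succ e)
  have h4 : ((kk : ℕ) : ℤ) ∣ (p : ℤ) ^ (f * ℓ ^ e) - 1 := by
    rcases hkk with rfl | rfl
    · simp
    · have h5 : Odd (p : ℤ) := by
        have h6 : p.Coprime 2 := Nat.Coprime.coprime_dvd_right (Dvd.intro _ rfl) hpc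
        rcases Nat.even_or_odd p with h | h
        · exfalso
          have h7 := Nat.dvd_gcd (even_iff_two_dvd.mp h) (dvd_refl 2)
          rw [h6] at h7
          exact absurd (Nat.dvd_one.mp h7) (by norm_num)
        · exact_mod_cast h
      have h8 : Even ((p : ℤ) ^ (f * ℓ ^ e) - 1) := (h5.pow).sub_odd odd_one
      exact_mod_cast even_iff_two_dvd.mp h8
  have h5 : ((kk * ℓ ^ e : ℕ) : ℤ) ∣ (p : ℤ) ^ (f * ℓ ^ e) - 1 := by
    push_cast
    refine IsCoprime.mul_dvd ?_ h4 (by exact_mod_cast h3)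
    have h6 : Nat.Coprime kk (ℓ ^ e) := by
      rcases hkk with rfl | rfl
      · exact Nat.coprime_one_left _
      · exact Nat.Coprime.pow_right e ((Nat.coprime_primes Nat.prime_two hℓ).mpr (Ne.symm hℓ2))
    exact_mod_cast h6.isCoprime
  have h6 : (p : ZMod (kk * ℓ ^ e)) ^ (f * ℓ ^ e) = 1 := by
    have h7 := (ZMod.intCast_eq_intCast_iff_dvd_sub 1 ((p : ℤ) ^ (f * ℓ ^ e)) (kk * ℓ ^ e)).mpr h5
    push_cast at h7
    exact h7.symm
  exact (Nat.odd_mul.mpr ⟨hord, (hℓ.odd_of_ne_two hℓ2).pow⟩).of_dvd_nat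
    (orderOf_dvd_of_pow_eq_one h6)

/-- elements of small order come from a lower level -/
lemma iota_div {L m2 m : ℕ} (hL : 0 < L) (hm2 : 0 < m2) (hLm : L * m2 = m) {a : ZMod m}
    (ha : addOrderOf a ∣ m2) : (iota L (((a.val / L : ℕ) : ZMod m2)) : ZMod m) = a := by
  have hm : 0 < m := by rw [← hLm]; exact Nat.mul_pos hL hm2
  have hz : NeZero m := ⟨hm.ne'⟩
  have hz2 : NeZero m2 := ⟨hm2.ne'⟩
  have h1 : m2 • a = 0 := by
    obtain ⟨c, hc⟩ := ha
    rw [hc, mul_nsmul, addOrderOf_nsmul_eq_zero, nsmul_zero]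
  have h2 : L ∣ a.val := by
    have h3 : ((m2 * a.val : ℕ) : ZMod m) = 0 := by
      push_cast
      rw [ZMod.natCast_zmod_val, ← nsmul_eq_mul]
      exact h1
    rw [ZMod.natCast_eq_zero_iff] at h3
    have h4 : m2 * L ∣ m2 * a.val := (by rw [mul_comm, hLm] : m2 * L = m) ▸ h3
    exact Nat.dvd_of_mul_dvd_mul_left hm2 h4
  have hlt : a.val / L < m2 := by
    rw [Nat.div_lt_iff_lt_mul hL, mul_comm, hLm]
    exact ZMod.val_lt a
  unfold iota
  rw [ZMod.val_natCast, Nat.mod_eq_of_lt hlt, Nat.mul_div_cancel' h2, ZMod.natCast_zmod_val]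

lemma rel0_descend {k m0 m : ℕ} [NeZero m0] [NeZero m] (hp : p.Coprime m) (h : k * m0 = m)
    {s : Multiset (ZMod m0)} (hs : Rel0 p (s.map (iota k : ZMod m0 → ZMod m))) : Rel0 p s := by
  intro t0
  obtain ⟨t, ht⟩ := ZMod.unitsMap_surjective (Dvd.intro_left k h : m0 ∣ m) t0
  obtain ⟨r, hr0, hr⟩ := W_iota' (k := k) (m0 := m0) (m := m) hp h
  have h1 := hs t
  rw [Multiset.map_map] at h1
  have h2 : (s.map ((fun a => W p ((t : ZMod m) * a)) ∘ (iota k : ZMod m0 → ZMod m))).sum =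
      (s.map fun a => (k : ℤ) * (r : ℤ) * W p ((t0 : ZMod m0) * a)).sum := by
    congr 1
    refine Multiset.map_congr rfl fun a _ => ?_
    rw [Function.comp_apply, unit_iota h, hr, ht]
  rw [h2, Multiset.sum_map_mul_left] at h1
  have hk : (k : ℤ) ≠ 0 := by
    have h3 : k ≠ 0 := by
      rintro rfl
      rw [zero_mul] at h
      exact NeZero.ne m h.symm
    exact_mod_cast h3
  have hr' : (r : ℤ) ≠ 0 := by exact_mod_cast hr0.ne'
  rcases mul_eq_zero.mp h1 with h3 | h3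
  · exact absurd h3 (mul_ne_zero hk hr')
  · exact h3

theorem even_single {m ℓ : ℕ} (hm : 0 < m) (hpm : p.Coprime m) (hℓ : ℓ.Prime) (hℓ2 : ℓ ≠ 2)
    {s : Multiset (ZMod m)} (hr : Rel0 p s) (hPP : ∀ a ∈ s, PP (addOrderOf a))
    (hord : Odd (orderOf (p : ZMod ℓ))) : Even (s.countP (Supp {ℓ})) := by
  have hz : NeZero m := ⟨hm.ne'⟩
  set s1 := s.filter fun a => ℓ ∣ addOrderOf a with hs1
  have hr1 : Rel0 p s1 := rel0_filter hm hℓ hℓ2 hr hPP
  have hcount : s1.countP (Supp {ℓ}) = s.countP (Supp {ℓ}) := by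
    rw [hs1, Multiset.countP_filter]
    refine Multiset.countP_congr rfl fun a _ => ?_
    refine propext ⟨fun h => h.1, fun h => ⟨h, ?_⟩⟩
    have h' : (addOrderOf a).primeFactors = {ℓ} := h
    have h1 : ℓ ∈ (addOrderOf a).primeFactors := by rw [h']; exact mem_singleton_self ℓ
    exact Nat.dvd_of_mem_primeFactors h1
  rw [← hcount]
  obtain ⟨e, d, hd, hmd⟩ := Nat.exists_eq_pow_mul_and_not_dvd hm.ne' ℓ hℓ.ne_one
  obtain ⟨kk, L, hkk, hL, hk2⟩ : ∃ kk L : ℕ, (kk = 1 ∨ kk = 2) ∧ L * (kk * ℓ ^ e) = m ∧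
      (2 ∣ m → kk = 2) := by
    by_cases h2 : 2 ∣ m
    · have h3 : 2 ∣ d := by
        rw [hmd] at h2
        rcases Nat.prime_two.dvd_mul.mp h2 with h | h
        · exact absurd ((Nat.prime_dvd_prime_iff_eq Nat.prime_two hℓ).mp
            (Nat.prime_two.dvd_of_dvd_pow h)) (Ne.symm hℓ2)
        · exact h
      obtain ⟨d', rfl⟩ := h3
      exact ⟨2, d', Or.inr rfl, by rw [hmd]; ring, fun _ => rfl⟩
    · exact ⟨1, d, Or.inl rfl, by rw [hmd]; ring, fun h => absurd h h2⟩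
  set m2 := kk * ℓ ^ e with hm2
  have hm20 : 0 < m2 := Nat.mul_pos (by omega) (pow_pos hℓ.pos e)
  have hz2 : NeZero m2 := ⟨hm20.ne'⟩
  have hL0 : 0 < L := Nat.pos_of_ne_zero (by rintro rfl; rw [zero_mul] at hL; omega)
  have hord_dvd : ∀ a ∈ s1, addOrderOf a ∣ m2 := by
    intro a ha
    obtain ⟨has, hℓa⟩ := Multiset.mem_filter.mp ha
    obtain ⟨r, j, hr', hj⟩ := hPP a has
    have hrℓ : r = ℓ := by
      have h3 : ℓ ∣ r := by
        rcases hj with hj | hj
        · rw [hj] at hℓa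
          exact hℓ.dvd_of_dvd_pow hℓa
        · rw [hj] at hℓa
          rcases hℓ.dvd_mul.mp hℓa with h4 | h4
          · exact absurd ((Nat.prime_dvd_prime_iff_eq hℓ Nat.prime_two).mp h4) hℓ2
          · exact hℓ.dvd_of_dvd_pow h4
      exact ((Nat.prime_dvd_prime_iff_eq hℓ hr').mp h3).symm
    subst hrℓ
    have hdm : addOrderOf a ∣ m := addOrderOf_dvd_level a
    have hjk : r ^ j ∣ r ^ e := by
      have h3 : r ^ j ∣ r ^ e * d := by
        rw [← hmd]
        refine Dvd.dvd.trans ?_ hdm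
        rcases hj with hj | hj
        · rw [hj]
        · rw [hj]; exact Dvd.intro_left _ rfl
      exact (Nat.Coprime.pow_left j (hℓ.coprime_iff_not_dvd.mpr hd)).dvd_of_dvd_mul_right h3
    rcases hj with hj | hj
    · rw [hj, hm2]; exact hjk.mul_left kk
    · have h2m : 2 ∣ m := Dvd.dvd.trans (by rw [hj]; exact Dvd.intro _ rfl) hdm
      rw [hj, hm2, hk2 h2m]
      exact mul_dvd_mul_left 2 hjk
  set s2 : Multiset (ZMod m2) := s1.map fun a => ((a.val / L : ℕ) : ZMod m2) with hs2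
  have hs21 : s2.map (iota L : ZMod m2 → ZMod m) = s1 := by
    rw [hs2, Multiset.map_map]
    conv_rhs => rw [← Multiset.map_id s1]
    refine Multiset.map_congr rfl fun a ha => ?_
    rw [Function.comp_apply, iota_div hL0 hm20 hL (hord_dvd a ha)]
    rfl
  have hpm2 : p.Coprime m2 := Nat.Coprime.coprime_dvd_right (Dvd.intro_left _ hL) hpm
  have hr2 : Rel0 p s2 := rel0_descend hpm hL (by rw [hs21]; exact hr1)
  have hodd2 : ¬ 2 ∣ ℓ ^ e := by
    intro h
    exact absurd ((Nat.prime_dvd_prime_iff_eq Nat.prime_two hℓ).mp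
      (Nat.prime_two.dvd_of_dvd_pow h)) (Ne.symm hℓ2)
  have h5 := parity_all (p := p) (pow_pos hℓ.pos e) hkk (rfl : kk * ℓ ^ e = m2) hodd2 hpm2
    (odd_order hℓ hℓ2 hkk hpm2 hord) (by
      intro r r' hrp hrp' hrd hrd' hne
      exact absurd (((Nat.prime_dvd_prime_iff_eq hrp hℓ).mp (hrp.dvd_of_dvd_pow hrd)).trans
        ((Nat.prime_dvd_prime_iff_eq hrp' hℓ).mp (hrp'.dvd_of_dvd_pow hrd')).symm) hne)
    hr2 {ℓ} (singleton_nonempty ℓ) (by rw [mem_singleton]; exact Ne.symm hℓ2)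
  rw [← countP_iota hL, hs21] at h5
  exact h5

/-- elements which are opposite to a multiple by a power of `p` -/
def Opp (p : ℕ) {m : ℕ} (a : ZMod m) : Prop := ∃ j : ℕ, addOrderOf a ∣ p ^ j + 1

lemma opp_pw {m : ℕ} [NeZero m] {a : ZMod m} (h : Opp p a) : PW p a := by
  obtain ⟨j, hj⟩ := h
  apply pw_of_pow (j := j)
  have h1 : (p ^ j + 1) • a = 0 := addOrderOf_dvd_iff_nsmul_eq_zero.mp hj
  rw [nsmul_eq_mul] at h1
  push_cast at h1
  linear_combination h1

open scoped Classical in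
/-- all classes of linked residues are even -/
theorem parity_PP {m : ℕ} (hm : 0 < m) (hpm : p.Coprime m)
    {s : Multiset (ZMod m)} (h0 : (0 : ZMod m) ∉ s) (he : Even (Multiset.card s)) (hr : Rel0 p s)
    (hPP : ∀ a ∈ s, PP (addOrderOf a) ∨ Opp p a) (a : ZMod m) :
    Even (s.countP (fun b => Relation.EqvGen (Link p) a b)) := by
  have hz : NeZero m := ⟨hm.ne'⟩
  set s1 := s.filter fun b => ¬ Opp p b with hs1
  have hr1 : Rel0 p s1 := by
    intro t
    have h1 := hr t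
    have h2 : (s.map fun b => W p ((t : ZMod m) * b)).sum =
        ((s.filter fun b => Opp p b).map fun b => W p ((t : ZMod m) * b)).sum +
        (s1.map fun b => W p ((t : ZMod m) * b)).sum := by
      rw [← Multiset.sum_add, ← Multiset.map_add, Multiset.filter_add_not]
    have h3 : ((s.filter fun b => Opp p b).map fun b => W p ((t : ZMod m) * b)).sum = 0 := by
      apply Multiset.sum_eq_zero
      intro x hx
      obtain ⟨b, hb, rfl⟩ := Multiset.mem_map.mp hx
      exact opp_pw (Multiset.mem_filter.mp hb).2 t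
    rw [h2, h3, zero_add] at h1
    exact h1
  have hPP1 : ∀ b ∈ s1, PP (addOrderOf b) := by
    intro b hb
    obtain ⟨hbs, hb1⟩ := Multiset.mem_filter.mp hb
    exact (hPP b hbs).resolve_right hb1
  have key := link_parity2 (p := p) h0 he (fun S => S.Nonempty ∧ Dead p S)
    (fun S hS a ha => dead_elem S hS.1 hS.2 a ha) ?_ a
  · convert key
  · intro S hSne h2S hnD
    -- no element of `s` of support `S` is opposite
    have hopp : ∀ b : ZMod m, Supp S b → ¬ Opp p b := by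
      rintro b hb ⟨j, hj⟩
      have hb' : (addOrderOf b).primeFactors = S := hb
      exact hnD ⟨hSne, j, (by rw [← hb']; exact Nat.prod_primeFactors_dvd _ :
        (∏ q ∈ S, q) ∣ addOrderOf b).trans hj⟩
    have hcount : s.countP (Supp S) = s1.countP (Supp S) := by
      rw [hs1, Multiset.countP_filter]
      refine Multiset.countP_congr rfl fun b _ => ?_
      exact propext ⟨fun h => ⟨h, hopp b h⟩, fun h => h.1⟩
    rw [hcount]
    by_cases hex : ∃ b ∈ s1, Supp S b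
    · obtain ⟨b, hbs, hb⟩ := hex
      have hb' : (addOrderOf b).primeFactors = S := hb
      obtain ⟨ℓ, j, hℓ, hj⟩ := hPP1 b hbs
      have hb0 : addOrderOf b ≠ 0 := (addOrderOf_pos b).ne'
      have hj2 : addOrderOf b = ℓ ^ j := by
        rcases hj with hj | hj
        · exact hj
        · exfalso
          apply h2S
          rw [← hb', Nat.mem_primeFactors]
          exact ⟨Nat.prime_two, by rw [hj]; exact Dvd.intro _ rfl, hb0⟩
      have hj0 : j ≠ 0 := by
        rintro rfl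
        rw [hj2] at hb'
        simp at hb'
        rw [← hb'] at hSne
        exact absurd hSne (by simp)
      have hS : S = {ℓ} := by
        rw [← hb', hj2, Nat.primeFactors_prime_pow hj0 hℓ]
      have hℓ2 : ℓ ≠ 2 := by
        rintro rfl
        apply h2S
        rw [hS]
        exact mem_singleton_self 2
      rw [hS]
      refine even_single hm hpm hℓ hℓ2 hr1 hPP1 ?_
      by_contra hne
      rw [Nat.not_odd_iff_even] at hne
      apply hnD
      refine ⟨hSne, ?_⟩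
      obtain ⟨c, hc⟩ := hne
      have hℓf : Fact ℓ.Prime := ⟨hℓ⟩
      have hpℓ : p.Coprime ℓ := by
        have h3 : ℓ ∣ m := by
          refine Dvd.dvd.trans ?_ (addOrderOf_dvd_level b)
          rw [hj2]
          exact dvd_pow_self ℓ hj0
        exact Nat.Coprime.coprime_dvd_right h3 hpm
      have hpos : 0 < orderOf (p : ZMod ℓ) := order_pos hpℓ
      have h1 : ((p : ZMod ℓ) ^ c) ^ 2 = 1 := by
        rw [← pow_mul, mul_two, ← hc]
        exact pow_orderOf_eq_one _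
      have h2 : (p : ZMod ℓ) ^ c ≠ 1 := by
        intro h
        have h3 := orderOf_dvd_of_pow_eq_one h
        have h4 := Nat.le_of_dvd (by omega) h3
        omega
      have h3 : (p : ZMod ℓ) ^ c = -1 := by
        rcases sq_eq_one_iff.mp h1 with h | h
        · exact absurd h h2
        · exact h
      refine ⟨c, ?_⟩
      rw [hS, prod_singleton, ← ZMod.natCast_eq_zero_iff]
      push_cast
      rw [h3]
      ring
    · have h1 : s1.countP (Supp S) = 0 := by
        rw [Multiset.countP_eq_zero]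
        intro b hb hb2
        exact hex ⟨b, hb, hb2⟩
      rw [h1]
      exact Even.zero

end Pool.Agent.H547_as
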